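import Pool.Agent.H14SIC.Small

set_option autoImplicit false

/-! Sixteen equiangular lines in `ℂ ^ 4`. -/

namespace Pool.Agent.H14SIC

open Pool.Agent.H32Iso Pool.Agent.H94EI
open scoped ComplexConjugate

/-- The ring `ℤ[√5][√2]`. -/
abbrev L52 : Type := QuadraticAlgebra (QuadraticAlgebra ℤ 5 0) 2 0

/-- The ring `ℤ[√5][√2][√(4 + 2 √5)]`. -/
abbrev L524 : Type := QuadraticAlgebra L52 ⟨⟨4, 2⟩, 0⟩ 0

/-- The ring homomorphism from `L52` to `ℝ`. -/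
noncomputable def hom52 : L52 →+* ℝ := ext 2 (sqrtHom 5) (√2) (by
  rw [Real.mul_self_sqrt (by norm_num), map_ofNat])

/-- The ring homomorphism from `L524` to `ℝ`. -/
noncomputable def hom524 : L524 →+* ℝ :=
  ext ⟨⟨4, 2⟩, 0⟩ hom52 (√(4 + 2 * √5)) (by
    rw [Real.mul_self_sqrt (by positivity), hom52, ext_apply, map_zero, sqrtHom_apply]
    push_cast
    ring)

/-- The fiducial vector in dimension 4. -/
def fid4 : ZMod 4 → QuadraticAlgebra L524 (-1) 0 :=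
  ![⟨⟨1, 1⟩, 1⟩, ⟨⟨⟨1, 1⟩, 0⟩, 1⟩, ⟨⟨-1, 1⟩, -1⟩, ⟨⟨⟨1, -1⟩, 0⟩, 1⟩]

theorem fid4_corr : Corr (-1) fid4 ⟨⟨⟨96, 32⟩, 0⟩, 0⟩ := by
  decide +kernel

/-- Sixteen equiangular lines in `ℂ ^ 4`. -/
theorem sic4 : 16 ∈ sizes ℂ 1 4 := by
  have := sic_corr (G := ZMod 4) (-1) hom524 1 (by simp) fid4 ⟨⟨⟨96, 32⟩, 0⟩, 0⟩
    (by
      have := sqrtHom_pos 5 96 32 (by norm_num) (by norm_num)
      rw [hom524, ext_apply, map_zero, hom52, ext_apply, map_zero]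
      simpa only [zero_mul, add_zero] using this) fid4_corr
  simpa using this

end Pool.Agent.H14SIC
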