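import Pool.Agent.H14SIC.Nineteen
import Pool.Agent.H14SIC.Four

set_option autoImplicit false

/-! The planes in real spaces that the equiangular complex lines give. -/

namespace Pool.Agent.H14SIC

open Pool.Agent.H32Iso Pool.Agent.H94EI

/-- Four equi-isoclinic planes in `ℝ ^ 4`. -/
theorem sicR2 : 4 ∈ sizes ℝ 2 4 := realify 1 2 sic2

/-- Nine equi-isoclinic planes in `ℝ ^ 6`. -/
theorem sicR3 : 9 ∈ sizes ℝ 2 6 := realify 1 3 sic3

/-- Sixteen equi-isoclinic planes in `ℝ ^ 8`. -/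
theorem sicR4 : 16 ∈ sizes ℝ 2 8 := realify 1 4 sic4

/-- Forty-nine equi-isoclinic planes in `ℝ ^ 14`. -/
theorem sicR7 : 49 ∈ sizes ℝ 2 14 := realify 1 7 sic7

/-- Sixty-four equi-isoclinic planes in `ℝ ^ 16`. -/
theorem sicR8 : 64 ∈ sizes ℝ 2 16 := realify 1 8 sic8

/-- Three hundred and sixty-one equi-isoclinic planes in `ℝ ^ 38`. -/
theorem sicR19 : 361 ∈ sizes ℝ 2 38 := realify 1 19 sic19

end Pool.Agent.H14SIC
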