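import Pool.Agent.H14SIC.Small

set_option autoImplicit false

/-! `19 ^ 2` equiangular lines in `ℂ ^ 19`. -/

namespace Pool.Agent.H14SIC

open Pool.Agent.H32Iso Pool.Agent.H94EI
open scoped ComplexConjugate

/-- The ring `ℤ[√5]`. -/
abbrev L5 : Type := QuadraticAlgebra ℤ 5 0

/-- The ring `ℤ[√5][√(-1 - 2 √5)]`. -/
abbrev Q5 : Type := QuadraticAlgebra L5 ⟨-1, -2⟩ 0

/-- The fiducial vector in dimension 19: `2 + 2 √5` at zero, `1 + w` at the non-zero squares and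
`1 - w` at the non-squares, `w ^ 2 = -1 - 2 √5`. -/
def fid19 : ZMod 19 → Q5 :=
  let q : Q5 := ⟨1, 1⟩
  let n : Q5 := ⟨1, -1⟩
  ![⟨⟨2, 2⟩, 0⟩, q, n, n, q, q, q, q, n, q, n, q, n, n, n, n, q, q, n]

theorem fid19_corr : Corr (⟨-1, -2⟩ : L5) fid19 ⟨664, 264⟩ := by
  decide +kernel

/-- Three hundred and sixty-one equiangular lines in `ℂ ^ 19`. -/
theorem sic19 : 361 ∈ sizes ℂ 1 19 := by
  have h0 : (0 : ℝ) ≤ 1 + 2 * √(5 : ℝ) := by positivity
  have := sic_corr (G := ZMod 19) ⟨-1, -2⟩ (sqrtHom 5) (√(1 + 2 * √(5 : ℝ)))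
    (by rw [Real.mul_self_sqrt h0, sqrtHom_apply]; push_cast; ring) fid19 ⟨664, 264⟩
    (sqrtHom_pos 5 664 264 (by norm_num) (by norm_num)) fid19_corr
  simpa using this

end Pool.Agent.H14SIC
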