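import Pool.Agent.H94EI.Lines
import Mathlib.Analysis.Fourier.FiniteAbelian.PontryaginDuality

set_option autoImplicit false

/-! Equiangular lines `ℂ^d`, `d ^ 2` of them, as the orbit of a vector under the translations and
characters of an abelian group with `d` elements. -/

namespace Pool.Agent.H14SIC

open Pool.Agent.H32Iso Pool.Agent.H94EI
open scoped ComplexConjugate

variable {G : Type} [AddCommGroup G] [Fintype G] [DecidableEq G]

/-- The orbit of the vector `f` under the translations and the characters of `G`. -/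
noncomputable def orb (f : G → ℂ) (i : G × AddChar G ℂ) (x : G) : ℂ := i.2 x * f (x - i.1)

omit [DecidableEq G] in
theorem orb_norm (f : G → ℂ) (i : G × AddChar G ℂ) :
    ∑ x, Complex.normSq (orb f i x) = ∑ x, Complex.normSq (f x) := by
  rw [← Equiv.sum_comp (Equiv.subRight i.1) (fun x => Complex.normSq (f x))]
  refine Finset.sum_congr rfl fun x _ => ?_
  simp only [orb, map_mul, Equiv.subRight_apply]
  rw [Complex.normSq_eq_norm_sq (i.2 x), AddChar.norm_apply]
  simp

theorem orb_herm (f : G → ℂ) (M : ℝ)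
    (h : ∀ a k, ∑ x, conj (f x) * f (x + a) * f (x + k) * conj (f (x + a + k)) =
      M * ((if a = 0 then 1 else 0) + (if k = 0 then 1 else 0))) (i j : G × AddChar G ℂ) :
    Complex.normSq (herm (orb f i) (orb f j)) = M * (1 + if i = j then (Fintype.card G : ℝ) else 0) := by
  obtain ⟨a, χ⟩ := i
  obtain ⟨b, ψ⟩ := j
  have hθ : ∀ x, conj (χ x) * ψ x = (ψ - χ) x := fun x => by
    rw [AddChar.sub_apply, AddChar.map_neg_eq_conj, mul_comm]
  have hθn : ∀ x y, conj ((ψ - χ) x) * (ψ - χ) (x + y) = (ψ - χ) y := fun x y => by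
    rw [AddChar.map_add_eq_mul, ← mul_assoc, ← Complex.normSq_eq_conj_mul_self,
      Complex.normSq_eq_norm_sq, AddChar.norm_apply]
    simp
  have hS : herm (orb f (a, χ)) (orb f (b, ψ)) =
      ∑ x, (ψ - χ) x * (conj (f (x - a)) * f (x - b)) := by
    refine Finset.sum_congr rfl fun x _ => ?_
    simp only [orb, map_mul]
    rw [← hθ x]
    ring
  have key : ((Complex.normSq (herm (orb f (a, χ)) (orb f (b, ψ))) : ℝ) : ℂ) =
      ∑ k, (ψ - χ) k * ∑ x, conj (f x) * f (x + (b - a)) * f (x + k) * conj (f (x + (b - a) + k)) := by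
    rw [Complex.normSq_eq_conj_mul_self, hS, map_sum, Finset.sum_mul_sum]
    have h1 : ∀ x : G, ∑ y, conj ((ψ - χ) x * (conj (f (x - a)) * f (x - b))) *
          ((ψ - χ) y * (conj (f (y - a)) * f (y - b))) =
        ∑ k, (ψ - χ) k * (conj (f (x - b)) * f (x - a) * f (x - b + k) * conj (f (x - a + k))) := by
      intro x
      rw [← Equiv.sum_comp (Equiv.addLeft x)]
      refine Finset.sum_congr rfl fun k _ => ?_
      simp only [Equiv.coe_addLeft, map_mul, Complex.conj_conj]
      rw [← hθn x k, show x + k - a = x - a + k by abel, show x + k - b = x - b + k by abel]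
      ring
    rw [Finset.sum_congr rfl fun x _ => h1 x, Finset.sum_comm]
    refine Finset.sum_congr rfl fun k _ => ?_
    rw [← Finset.mul_sum]
    congr 1
    rw [← Equiv.sum_comp (Equiv.addRight b)]
    refine Finset.sum_congr rfl fun x _ => ?_
    simp only [Equiv.coe_addRight]
    rw [show x + b - b = x by abel, show x + b - a = x + (b - a) by abel]
  have key2 : ((Complex.normSq (herm (orb f (a, χ)) (orb f (b, ψ))) : ℝ) : ℂ) =
      ((M * (1 + if (a, χ) = (b, ψ) then (Fintype.card G : ℝ) else 0) : ℝ) : ℂ) := by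
    rw [key]
    have h2 : ∀ k : G, (ψ - χ) k * ∑ x, conj (f x) * f (x + (b - a)) * f (x + k) *
        conj (f (x + (b - a) + k)) = (M : ℂ) * (if b - a = 0 then 1 else 0) * (ψ - χ) k +
          (if k = 0 then (M : ℂ) else 0) := by
      intro k
      rw [h]
      by_cases hk : k = 0
      · subst hk
        simp [mul_add]
      · simp only [hk, if_false, add_zero]
        ring
    rw [Finset.sum_congr rfl fun k _ => h2 k, Finset.sum_add_distrib, ← Finset.mul_sum,
      AddChar.sum_eq_ite, Finset.sum_ite_eq' Finset.univ (0 : G)]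
    simp only [Finset.mem_univ, if_true, sub_eq_zero, Prod.mk.injEq]
    by_cases h3 : b = a <;> by_cases h4 : ψ = χ
    · subst h3 h4; simp; ring
    · subst h3; simp [h4, Ne.symm h4]
    · subst h4; simp [h3, Ne.symm h3]
    · simp [h3, Ne.symm h3]
  exact_mod_cast key2

theorem orb_span (f : G → ℂ) (x₀ : G) (hx : f x₀ ≠ 0) (w : G → ℂ)
    (hw : ∀ i, herm (orb f i) w = 0) : w = 0 := by
  funext y
  have h1 : ∑ χ : AddChar G ℂ, χ y * herm (orb f (y - x₀, χ)) w =
      (Fintype.card G : ℂ) * (conj (f x₀) * w y) := by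
    simp only [herm, orb, Finset.mul_sum]
    rw [Finset.sum_comm]
    have h2 : ∀ x : G, ∑ χ : AddChar G ℂ, χ y * (conj (χ x * f (x - (y - x₀))) * w x) =
        if x = y then (Fintype.card G : ℂ) * (conj (f x₀) * w y) else 0 := by
      intro x
      have h3 : ∀ χ : AddChar G ℂ, χ y * (conj (χ x * f (x - (y - x₀))) * w x) =
          χ (y - x) * (conj (f (x - (y - x₀))) * w x) := by
        intro χ
        rw [sub_eq_add_neg y x, AddChar.map_add_eq_mul, AddChar.map_neg_eq_conj, map_mul]
        ring
      rw [Finset.sum_congr rfl fun χ _ => h3 χ, ← Finset.sum_mul, AddChar.sum_apply_eq_ite]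
      by_cases hxy : x = y
      · subst hxy; simp
      · simp [sub_eq_zero, Ne.symm hxy, hxy]
    rw [Finset.sum_congr rfl fun x _ => h2 x]
    simp
  rw [Finset.sum_congr rfl fun χ _ => by rw [hw, mul_zero], Finset.sum_const_zero] at h1
  have h4 : (Fintype.card G : ℂ) ≠ 0 := by
    have : Nonempty G := ⟨0⟩
    exact_mod_cast Fintype.card_ne_zero
  have h5 : conj (f x₀) ≠ 0 := by simpa using hx
  simpa [h4, h5] using h1.symm

/-- If a vector `f` of `ℂ ^ G` has the right fourth order correlations, its orbit gives `d ^ 2`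
equiangular lines in `ℂ ^ d`, `d` the order of `G`. -/
theorem sic (f : G → ℂ) (M : ℝ) (hM : 0 < M)
    (h : ∀ a k, ∑ x, conj (f x) * f (x + a) * f (x + k) * conj (f (x + a + k)) =
      M * ((if a = 0 then 1 else 0) + (if k = 0 then 1 else 0))) :
    Fintype.card G ^ 2 ∈ sizes ℂ 1 (Fintype.card G) := by
  have hcard : Fintype.card (G × AddChar G ℂ) = Fintype.card G ^ 2 := by
    rw [Fintype.card_prod, AddChar.card_eq, sq]
  have hG : 0 < (Fintype.card G : ℝ) := by
    have : Nonempty G := ⟨0⟩
    exact_mod_cast Fintype.card_pos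
  set N : ℝ := ∑ x, Complex.normSq (f x) with hNdef
  have hN0 : 0 ≤ N := Finset.sum_nonneg fun x _ => Complex.normSq_nonneg _
  have hNM : N ^ 2 = M * (1 + Fintype.card G) := by
    have h1 := orb_herm f M h (0, 0) (0, 0)
    rw [herm_self, orb_norm, ← hNdef, Complex.normSq_ofReal] at h1
    rw [sq, h1]; simp
  have hN : 0 < N := by
    rcases hN0.lt_or_eq with h1 | h1
    · exact h1
    · rw [← h1] at hNM
      have : 0 < M * (1 + (Fintype.card G : ℝ)) := by positivity
      nlinarith
  obtain ⟨x₀, hx⟩ : ∃ x, f x ≠ 0 := by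
    by_contra hcon
    push Not at hcon
    simp [hNdef, hcon] at hN
  rw [← hcard]
  refine lines_mem_sizes (orb f) N M hN hM.le ?_ (fun i => ?_) (fun i j hij => ?_)
    (orb_span f x₀ hx)
  · rw [hNM]; nlinarith
  · rw [orb_norm]
  · rw [orb_herm f M h, if_neg hij]; ring

end Pool.Agent.H14SIC
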