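import Pool.Agent.H14SIC.Orbit
import Mathlib.Algebra.QuadraticAlgebra.Basic

set_option autoImplicit false

/-! The fourth order correlations of `Orbit.lean` checked in a computable ring. -/

namespace Pool.Agent.H14SIC

open Pool.Agent.H32Iso Pool.Agent.H94EI
open scoped ComplexConjugate

variable {G : Type} [AddCommGroup G] [Fintype G] [DecidableEq G]

/-- `sic` with the correlations checked in a ring with involution mapping to `ℂ`. -/
theorem sic_ring {Q : Type} [CommRing Q] [StarRing Q] (φ : Q →+* ℂ)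
    (hφ : ∀ z, φ (star z) = conj (φ z)) (g : G → Q) (m : Q) (M : ℝ) (hM : 0 < M) (hm : φ m = M)
    (h : ∀ a k, ∑ x, star (g x) * g (x + a) * g (x + k) * star (g (x + a + k)) =
      (if a = 0 then m else 0) + (if k = 0 then m else 0)) :
    Fintype.card G ^ 2 ∈ sizes ℂ 1 (Fintype.card G) := by
  refine sic (fun x => φ (g x)) M hM fun a k => ?_
  have h1 := congrArg φ (h a k)
  simp only [map_sum, map_mul, map_add, hφ] at h1
  rw [h1]
  by_cases ha : a = 0 <;> by_cases hk : k = 0 <;> (simp [ha, hk, hm]; try ring)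

/-- The ring homomorphism from `R[√e]` to a commutative ring `S` given by one from `R` to `S` and a
square root of `e` in `S`. -/
def ext {R S : Type} [CommRing R] [CommRing S] (e : R) (φ : R →+* S) (u : S) (hu : u * u = φ e) :
    QuadraticAlgebra R e 0 →+* S where
  toFun z := φ z.re + φ z.im * u
  map_one' := by simp [QuadraticAlgebra.re_one, QuadraticAlgebra.im_one]
  map_zero' := by simp
  map_add' x y := by simp; ring
  map_mul' x y := by
    simp only [QuadraticAlgebra.re_mul, QuadraticAlgebra.im_mul, map_add, map_mul, zero_mul,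
      add_zero, ← hu]
    ring

theorem ext_apply {R S : Type} [CommRing R] [CommRing S] (e : R) (φ : R →+* S) (u : S)
    (hu : u * u = φ e) (z : QuadraticAlgebra R e 0) : ext e φ u hu z = φ z.re + φ z.im * u := rfl

theorem ext_star {R : Type} [CommRing R] (e : R) (φ : R →+* ℝ) (u : ℝ)
    (hu' : (Complex.I * u) * (Complex.I * u) = (Complex.ofRealHom.comp φ) e)
    (z : QuadraticAlgebra R e 0) :
    ext e (Complex.ofRealHom.comp φ) (Complex.I * u) hu' (star z) =
      conj (ext e (Complex.ofRealHom.comp φ) (Complex.I * u) hu' z) := by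
  simp [ext]

theorem I_sq_aux {R : Type} [CommRing R] (e : R) (φ : R →+* ℝ) (u : ℝ) (hu : -(u * u) = φ e) :
    (Complex.I * u) * (Complex.I * u) = (Complex.ofRealHom.comp φ) e := by
  simp only [RingHom.comp_apply, Complex.ofRealHom_eq_coe, ← hu]
  push_cast
  linear_combination (u : ℂ) ^ 2 * Complex.I_sq

/-- `sic` with the correlations checked in `L[√-e]`, `L` a ring mapping to `ℝ`. -/
theorem sic_quad {L : Type} [CommRing L] (e : L) (φ : L →+* ℝ) (u : ℝ) (hu : -(u * u) = φ e)
    (g : G → QuadraticAlgebra L e 0) (m : L) (hm : 0 < φ m)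
    (h : ∀ a k, ∑ x, star (g x) * g (x + a) * g (x + k) * star (g (x + a + k)) =
      (if a = 0 then ⟨m, 0⟩ else 0) + (if k = 0 then ⟨m, 0⟩ else 0)) :
    Fintype.card G ^ 2 ∈ sizes ℂ 1 (Fintype.card G) := by
  refine sic_ring (ext e (Complex.ofRealHom.comp φ) (Complex.I * u) (I_sq_aux e φ u hu))
    (fun z => ext_star e φ u _ z) g ⟨m, 0⟩ (φ m) hm ?_ h
  simp [ext]

/-- The correlation condition of `sic_quad`. -/
def Corr {L : Type} [CommRing L] (e : L) (g : G → QuadraticAlgebra L e 0) (m : L) : Prop :=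
  ∀ a k, ∑ x, star (g x) * g (x + a) * g (x + k) * star (g (x + a + k)) =
      (if a = 0 then ⟨m, 0⟩ else 0) + (if k = 0 then ⟨m, 0⟩ else 0)

instance {L : Type} [CommRing L] [DecidableEq L] (e : L) (g : G → QuadraticAlgebra L e 0) (m : L) :
    Decidable (Corr e g m) := by
  unfold Corr
  infer_instance

theorem sic_corr {L : Type} [CommRing L] (e : L) (φ : L →+* ℝ) (u : ℝ) (hu : -(u * u) = φ e)
    (g : G → QuadraticAlgebra L e 0) (m : L) (hm : 0 < φ m) (h : Corr e g m) :
    Fintype.card G ^ 2 ∈ sizes ℂ 1 (Fintype.card G) :=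
  sic_quad e φ u hu g m hm h

/-- The real number `√d` for a natural number `d`, as a homomorphism from `ℤ[√d]`. -/
noncomputable def sqrtHom (d : ℕ) : QuadraticAlgebra ℤ (d : ℤ) 0 →+* ℝ :=
  ext (d : ℤ) (Int.castRingHom ℝ) (√(d : ℝ)) (by simp [Real.mul_self_sqrt])

theorem sqrtHom_apply (d : ℕ) (z : QuadraticAlgebra ℤ (d : ℤ) 0) :
    sqrtHom d z = z.re + z.im * √(d : ℝ) := by
  simp [sqrtHom, ext]

end Pool.Agent.H14SIC
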