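import Pool.Agent.H14SIC.Ring

set_option autoImplicit false

/-! `d ^ 2` equiangular lines in `ℂ ^ d` for `d = 2, 3, 7, 8`. -/

namespace Pool.Agent.H14SIC

open Pool.Agent.H32Iso Pool.Agent.H94EI
open scoped ComplexConjugate

/-- The Gaussian integers, as a computable ring. -/
abbrev GI : Type := QuadraticAlgebra ℤ (-1) 0

theorem sic_int {G : Type} [AddCommGroup G] [Fintype G] [DecidableEq G] (g : G → GI) (m : ℤ)
    (hm : 0 < m)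
    (h : ∀ a k, ∑ x, star (g x) * g (x + a) * g (x + k) * star (g (x + a + k)) =
      (if a = 0 then ⟨m, 0⟩ else 0) + (if k = 0 then ⟨m, 0⟩ else 0)) :
    Fintype.card G ^ 2 ∈ sizes ℂ 1 (Fintype.card G) :=
  sic_quad (-1) (Int.castRingHom ℝ) 1 (by simp) g m (by simpa using hm) h

/-- Nine equiangular lines in `ℂ ^ 3`. -/
theorem sic3 : 9 ∈ sizes ℂ 1 3 := by
  have := sic_int (G := ZMod 3) ![0, 1, -1] 1 (by norm_num) (by decide +kernel)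
  simpa using this

/-- Sixty-four equiangular lines in `ℂ ^ 8`. -/
theorem sic8 : 64 ∈ sizes ℂ 1 8 := by
  have := sic_int (G := ZMod 2 × ZMod 2 × ZMod 2) (fun x => if x = 0 then ⟨-1, 2⟩ else 1) 16
    (by norm_num) (by decide +kernel)
  simpa using this

theorem sqrtHom_pos (d : ℕ) (a b : ℤ) (ha : 0 < a) (hb : 0 ≤ b) :
    0 < sqrtHom d ⟨a, b⟩ := by
  rw [sqrtHom_apply]
  have h1 : (0 : ℝ) < a := by exact_mod_cast ha
  have h2 : (0 : ℝ) ≤ b := by exact_mod_cast hb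
  have h3 := Real.sqrt_nonneg (d : ℝ)
  positivity

/-- Four equiangular lines in `ℂ ^ 2`. -/
theorem sic2 : 4 ∈ sizes ℂ 1 2 := by
  have := sic_quad (G := ZMod 2) (-1) (sqrtHom 3) 1 (by simp) ![⟨⟨1, 1⟩, 0⟩, ⟨1, 1⟩] ⟨16, 8⟩
    (sqrtHom_pos 3 16 8 (by norm_num) (by norm_num)) (by decide +kernel)
  simpa using this

/-- Forty-nine equiangular lines in `ℂ ^ 7`. -/
theorem sic7 : 49 ∈ sizes ℂ 1 7 := by
  have h0 : (0 : ℝ) ≤ 1 + 2 * √(2 : ℝ) := by positivity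
  have := sic_quad (G := ZMod 7) ⟨-1, -2⟩ (sqrtHom 2) (√(1 + 2 * √(2 : ℝ)))
    (by rw [Real.mul_self_sqrt h0, sqrtHom_apply]; push_cast; ring)
    ![⟨⟨4, 2⟩, 0⟩, ⟨⟨-1, -1⟩, 1⟩, ⟨⟨-1, -1⟩, 1⟩, ⟨⟨-1, -1⟩, -1⟩, ⟨⟨-1, -1⟩, 1⟩, ⟨⟨-1, -1⟩, -1⟩,
      ⟨⟨-1, -1⟩, -1⟩] ⟨688, 480⟩
    (sqrtHom_pos 2 688 480 (by norm_num) (by norm_num)) (by decide +kernel)
  simpa using this

end Pool.Agent.H14SIC
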